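import Pool.Agent.H648.Q.Defs

/-!
# Q648-TRI: from pairs to triples
-/

set_option autoImplicit false

namespace Pool.Agent.H980.Q648

open Finset
open Pool.Agent.H648.Q
open Pool.Agent.W78.GA (Qd nm prim pball dt ip)
open Pool.Agent.W78.GS (Pm)
open Pool.Agent.W78.GT (Tr NT tri Qp)

lemma split_nat {P Q E : ℕ} (hP : 0 < P) (hQ : 0 < Q) (hE : 0 < E) (h : E ^ 2 ∣ P * Q) :
    P / Nat.gcd P (E ^ 2) * Nat.gcd P (E ^ 2) = P ∧
    (P / Nat.gcd P (E ^ 2)) * (Q / (E ^ 2 / Nat.gcd P (E ^ 2))) * E ^ 2 = P * Q ∧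
    0 < P / Nat.gcd P (E ^ 2) ∧ 0 < Q / (E ^ 2 / Nat.gcd P (E ^ 2)) := by
  have hE2 : 0 < E ^ 2 := by positivity
  have hG : 0 < Nat.gcd P (E ^ 2) := Nat.gcd_pos_of_pos_left _ hP
  have hco := Nat.coprime_div_gcd_div_gcd hG
  obtain ⟨d, hd⟩ := Nat.gcd_dvd_left P (E ^ 2)
  obtain ⟨H, hH⟩ := Nat.gcd_dvd_right P (E ^ 2)
  set G := Nat.gcd P (E ^ 2) with hGdef
  have e1 : P / G = d := by
    rw [hd]; exact Nat.mul_div_cancel_left d hG
  have e2 : E ^ 2 / G = H := by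
    rw [hH]; exact Nat.mul_div_cancel_left H hG
  rw [e1, e2] at hco
  rw [e1, e2]
  have hHQ : H ∣ Q := by
    have h1 : G * H ∣ G * (d * Q) := by
      rw [← mul_assoc, ← hd, ← hH]; exact h
    have h2 : H ∣ d * Q := (Nat.mul_dvd_mul_iff_left hG).1 h1
    exact hco.symm.dvd_of_dvd_mul_left h2
  obtain ⟨q, hq⟩ := hHQ
  have hH0 : 0 < H := by
    rcases Nat.eq_zero_or_pos H with h0 | h0
    · rw [h0, mul_zero] at hH; omega
    · exact h0
  have e3 : Q / H = q := by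
    rw [hq]; exact Nat.mul_div_cancel_left q hH0
  rw [e3]
  refine ⟨by rw [mul_comm]; exact hd.symm, ?_, ?_, ?_⟩
  · rw [hH, hq]
    have hd' : P = G * d := hd
    calc d * q * (G * H) = (G * d) * (H * q) := by ring
      _ = P * (H * q) := by rw [← hd']
  · rcases Nat.eq_zero_or_pos d with h0 | h0
    · rw [h0, mul_zero] at hd; omega
    · exact h0
  · rcases Nat.eq_zero_or_pos q with h0 | h0
    · rw [h0, mul_zero] at hq; omega
    · exact h0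

/-- the map from pairs to triples, with the two auxiliary divisors -/
noncomputable def psi {t c : ℤ} (u : Qd t c) (p : Qd t c × Qd t c) :
    (ℕ × ℕ) × (Σ _ : ℤ, Tr) :=
  ((Int.gcd (ip p.1 (u * p.2)) (dt p.1 (u * p.2)),
    Nat.gcd (nm p.1) (Int.gcd (ip p.1 (u * p.2)) (dt p.1 (u * p.2)) ^ 2)),
    ⟨dt p.1 (u * p.2) / (Int.gcd (ip p.1 (u * p.2)) (dt p.1 (u * p.2)) : ℤ),
      (nm p.1 / Nat.gcd (nm p.1) (Int.gcd (ip p.1 (u * p.2)) (dt p.1 (u * p.2)) ^ 2),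
        ip p.1 (u * p.2) / (Int.gcd (ip p.1 (u * p.2)) (dt p.1 (u * p.2)) : ℤ),
        nm (u * p.2) / (Int.gcd (ip p.1 (u * p.2)) (dt p.1 (u * p.2)) ^ 2 /
          Nat.gcd (nm p.1) (Int.gcd (ip p.1 (u * p.2)) (dt p.1 (u * p.2)) ^ 2)))⟩)

lemma psi_facts {t c : ℤ} (hD : t ^ 2 < 4 * c) (u z z' : Qd t c) (hz : z ≠ 0) (hu : u ≠ 0)
    (hz' : z' ≠ 0) (hdt : dt z (u * z') ≠ 0) :
    ∃ (E G : ℕ) (n k : ℤ) (d d' : ℕ), psi u (z, z') = ((E, G), ⟨k, (d, n, d')⟩) ∧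
      1 ≤ E ∧ 1 ≤ G ∧ G ≤ E ^ 2 ∧ 1 ≤ d ∧ 1 ≤ d' ∧ d ≤ nm z ∧ d' ≤ nm (u * z') ∧
      nm z = d * G ∧ ip z (u * z') = E * n ∧ dt z (u * z') = E * k ∧ Int.gcd n k = 1 ∧
      (d : ℤ) * d' = n ^ 2 + t * n * k + c * k ^ 2 ∧ d * d' * E ^ 2 = nm z * nm (u * z') := by
  have hP : 0 < nm z := Pool.Agent.W78.GA.nm_pos hD hz
  have hQ : 0 < nm (u * z') := by
    rw [Pool.Agent.W78.GA.nm_mul]
    exact Nat.mul_pos (Pool.Agent.W78.GA.nm_pos hD hu) (Pool.Agent.W78.GA.nm_pos hD hz')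
  have hE : 0 < Int.gcd (ip z (u * z')) (dt z (u * z')) := Int.gcd_pos_of_ne_zero_right _ hdt
  have hid := Pool.Agent.W78.GA.ip_dt hD z (u * z')
  obtain ⟨n, hn⟩ := Int.gcd_dvd_left (ip z (u * z')) (dt z (u * z'))
  obtain ⟨k, hk⟩ := Int.gcd_dvd_right (ip z (u * z')) (dt z (u * z'))
  have hco := Int.gcd_div_gcd_div_gcd hE
  set E := Int.gcd (ip z (u * z')) (dt z (u * z')) with hEdef
  have hE0 : (E : ℤ) ≠ 0 := by exact_mod_cast hE.ne'
  have e1 : ip z (u * z') / (E : ℤ) = n := by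
    rw [hn]; exact Int.mul_ediv_cancel_left n hE0
  have e2 : dt z (u * z') / (E : ℤ) = k := by
    rw [hk]; exact Int.mul_ediv_cancel_left k hE0
  rw [e1, e2] at hco
  have hid2 : (nm z : ℤ) * nm (u * z') = (E : ℤ) ^ 2 * (n ^ 2 + t * n * k + c * k ^ 2) := by
    rw [hid, hn, hk]; ring
  have hdvd : E ^ 2 ∣ nm z * nm (u * z') := by
    have : ((E ^ 2 : ℕ) : ℤ) ∣ ((nm z * nm (u * z') : ℕ) : ℤ) := by
      push_cast
      rw [hid2]
      exact Dvd.intro _ rfl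
    exact_mod_cast this
  obtain ⟨s1, s2, s3, s4⟩ := split_nat hP hQ hE hdvd
  refine ⟨E, Nat.gcd (nm z) (E ^ 2), n, k, nm z / Nat.gcd (nm z) (E ^ 2),
    nm (u * z') / (E ^ 2 / Nat.gcd (nm z) (E ^ 2)), ?_, hE, Nat.gcd_pos_of_pos_left _ hP,
    Nat.le_of_dvd (by positivity) (Nat.gcd_dvd_right _ _), s3, s4, Nat.div_le_self _ _,
    Nat.div_le_self _ _, s1.symm, hn, hk, hco, ?_, s2⟩
  · unfold psi
    simp only [← hEdef, e1, e2]
  · have h1 : (E : ℤ) ^ 2 * (((nm z / Nat.gcd (nm z) (E ^ 2) : ℕ) : ℤ) *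
        ((nm (u * z') / (E ^ 2 / Nat.gcd (nm z) (E ^ 2)) : ℕ) : ℤ)) =
        (E : ℤ) ^ 2 * (n ^ 2 + t * n * k + c * k ^ 2) := by
      rw [← hid2]
      have s2' := congrArg (Nat.cast (R := ℤ)) s2
      push_cast at s2' ⊢
      linear_combination s2'
    exact mul_left_cancel₀ (pow_ne_zero 2 hE0) h1

lemma gcd_of {x : ℤ} {a e : ℕ} (hae : ∀ p : ℕ, p.Prime → p ∣ a → p ∣ e) (h : Int.gcd x e = 1) :
    IsCoprime x (a : ℤ) := by
  rw [Int.isCoprime_iff_gcd_eq_one]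
  by_contra hne
  obtain ⟨p, hp, hpd⟩ := Nat.exists_prime_and_dvd hne
  have h1 : (p : ℤ) ∣ x := (Int.natCast_dvd_natCast.2 hpd).trans (Int.gcd_dvd_left _ _)
  have h2 : (p : ℤ) ∣ (a : ℤ) := (Int.natCast_dvd_natCast.2 hpd).trans (Int.gcd_dvd_right _ _)
  have h3 : p ∣ e := hae p hp (Int.natCast_dvd_natCast.1 h2)
  have h4 : (p : ℤ) ∣ (Int.gcd x e : ℤ) := Int.dvd_coe_gcd h1 (Int.natCast_dvd_natCast.2 h3)
  rw [h] at h4
  have : p ∣ 1 := by exact_mod_cast h4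
  exact hp.one_lt.ne' (Nat.dvd_one.1 this)

lemma ip_coprime {b m : ℤ} {a e : ℕ} (hae : ∀ p : ℕ, p.Prime → p ∣ a → p ∣ e)
    (u z z' : Qd (b * a) (m * a ^ 2)) (hu : Int.gcd u.re a = 1) (hz : Int.gcd z.re e = 1)
    (hz' : Int.gcd z'.re e = 1) : IsCoprime (ip z (u * z')) (a : ℤ) := by
  have h1 : IsCoprime (z.re * (u.re * z'.re)) (a : ℤ) :=
    (gcd_of hae hz).mul_left ((Int.isCoprime_iff_gcd_eq_one.2 hu).mul_left (gcd_of hae hz'))
  have h2 : ip z (u * z') = z.re * (u.re * z'.re) + (a : ℤ) *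
      (-(m * a) * z.re * u.im * z'.im + b * z.im * (u * z').re +
        m * a * z.im * (u * z').im) := by
    unfold ip
    simp only [QuadraticAlgebra.re_mul, QuadraticAlgebra.im_mul]
    ring
  rw [h2]
  exact (IsCoprime.add_mul_left_left_iff).2 h1

theorem tri_of {g : ℕ → ℤ} {b m : ℤ} (hg : Pm g) (hD : b ^ 2 < 4 * m) (h : S_MUL b m) :
    S_TRI g b m := by
  classical
  intro a e u B ha hae hua hu
  obtain ⟨C₁, hC₁⟩ := h a u (B ^ 2) ha hu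
  have haR : (1 : ℤ) ≤ (a : ℤ) := by exact_mod_cast ha
  have hDa : (b * a) ^ 2 < 4 * (m * (a : ℤ) ^ 2) := by
    have : 0 < (a : ℤ) ^ 2 := by positivity
    nlinarith
  refine ⟨(C₁ : ℝ) * (B * B ^ 2) + nm u + 1, ?_, ?_⟩
  · have : (0 : ℝ) ≤ (C₁ : ℝ) * (B * B ^ 2) + nm u := by positivity
    linarith
  intro X hX
  set C : ℝ := (C₁ : ℝ) * (B * B ^ 2) + nm u + 1 with hC
  have hC0 : 0 ≤ (C₁ : ℝ) * (B * B ^ 2) := by positivity
  have hCu : (0 : ℝ) ≤ (nm u : ℝ) := by positivity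
  set T : Finset (Σ _ : ℤ, Tr) :=
    ((Icc (-(B : ℤ)) B).erase 0).sigma (fun k => TS g b m (a * k) (C * X)) with hT
  have hTcard : T.card = ∑ k ∈ (Icc (-(B : ℤ)) B).erase 0, (TS g b m (a * k) (C * X)).card :=
    Finset.card_sigma _ _
  have hmem : ∀ p ∈ NPr g b m a e u B X, p.1 ≠ 0 ∧ p.2 ≠ 0 ∧ dt p.1 (u * p.2) ≠ 0 ∧
      (nm p.1 : ℝ) ≤ X ∧ (nm p.2 : ℝ) ≤ X ∧ Int.gcd p.1.re e = 1 ∧ Int.gcd p.2.re e = 1 ∧
      g (nm p.1) ≠ g (nm (u * p.2)) ∧ |dt p.1 (u * p.2)| ≤ B ∧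
      0 < 2 * ip p.1 (u * p.2) + (b * a) * dt p.1 (u * p.2) := by
    intro p hp
    unfold NPr at hp
    rw [mem_filter, mem_product] at hp
    obtain ⟨⟨hp1, hp2⟩, hg1, hB, hpos⟩ := hp
    unfold UU at hp1 hp2
    rw [mem_filter, Pool.Agent.W78.GA.mem_pball hDa] at hp1 hp2
    have hz := Pool.Agent.W78.GA.prim_ne_zero hp1.1.1
    have hz' := Pool.Agent.W78.GA.prim_ne_zero hp2.1.1
    refine ⟨hz, hz', ?_, hp1.1.2, hp2.1.2, hp1.2, hp2.2, hg1, hB, hpos⟩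
    intro h0
    apply hg1
    have hid := Pool.Agent.W78.GA.ip_dt hDa p.1 (u * p.2)
    rw [h0] at hid
    have hid2 : nm p.1 * nm (u * p.2) = (ip p.1 (u * p.2)).natAbs * (ip p.1 (u * p.2)).natAbs := by
      have h1 : (nm p.1 : ℤ) * nm (u * p.2) = ip p.1 (u * p.2) * ip p.1 (u * p.2) := by
        rw [hid]; ring
      have h2 := congrArg Int.natAbs h1
      rw [Int.natAbs_mul, Int.natAbs_mul, Int.natAbs_natCast, Int.natAbs_natCast] at h2
      exact h2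
    have n1 : nm p.1 ≠ 0 := (Pool.Agent.W78.GA.nm_pos hDa hz).ne'
    have n2 : nm (u * p.2) ≠ 0 := by
      rw [Pool.Agent.W78.GA.nm_mul]
      exact (Nat.mul_pos (Pool.Agent.W78.GA.nm_pos hDa hu)
        (Pool.Agent.W78.GA.nm_pos hDa hz')).ne'
    have n3 : (ip p.1 (u * p.2)).natAbs ≠ 0 := by
      intro h3
      rw [h3] at hid2
      exact mul_ne_zero n1 n2 hid2
    have h4 := congrArg g hid2
    rw [hg.mul n1 n2, hg.mul n3 n3, hg.mul_self] at h4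
    have h5 := hg.mul_self (nm (u * p.2))
    have h6 := hg.ne_zero (nm (u * p.2))
    exact mul_right_cancel₀ h6 (h4.trans h5.symm)
  have hmaps : ∀ p ∈ NPr g b m a e u B X, psi u p ∈ ((Icc 1 B) ×ˢ (Icc 1 (B ^ 2))) ×ˢ T := by
    intro p hp
    obtain ⟨hz, hz', hdt, hX1, hX2, hc1, hc2, hg1, hB, hpos⟩ := hmem p hp
    obtain ⟨E, G, n, k, d, d', hpsi, hE, hG, hGE, hd, hd', hdn, hdn', hnm, hip, hdte, hgcd, heq,
      hprod⟩ := psi_facts hDa u p.1 p.2 hz hu hz' hdt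
    have hE0 : (0 : ℤ) < E := by exact_mod_cast hE
    have hk0 : k ≠ 0 := by
      rintro rfl
      apply hdt
      rw [hdte, mul_zero]
    have hkB : |k| * E ≤ B := by
      have : |dt p.1 (u * p.2)| = |k| * E := by
        rw [hdte, abs_mul, mul_comm, abs_of_pos hE0]
      rw [← this]; exact hB
    have hk1 : 1 ≤ |k| := Int.one_le_abs hk0
    have hEB : (E : ℤ) ≤ B := by nlinarith
    have hkB' : |k| ≤ B := by
      have : (1 : ℤ) ≤ E := by exact_mod_cast hE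
      nlinarith
    have hEB' : E ≤ B := by exact_mod_cast hEB
    have hpsi' : psi u p = ((E, G), ⟨k, (d, n, d')⟩) := hpsi
    rw [hpsi', mem_product, mem_product, Finset.mem_Icc, Finset.mem_Icc, hT, Finset.mem_sigma,
      Finset.mem_erase, Finset.mem_Icc]
    refine ⟨⟨⟨hE, hEB'⟩, hG, hGE.trans (Nat.pow_le_pow_left hEB' 2)⟩, ⟨hk0, abs_le.1 hkB'⟩, ?_⟩
    have hcop : IsCoprime (ip p.1 (u * p.2)) (a : ℤ) := ip_coprime hae u p.1 p.2 hua hc1 hc2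
    rw [hip] at hcop
    have hcop2 : IsCoprime n (a : ℤ) := IsCoprime.of_mul_left_right hcop
    have hcop3 : IsCoprime n ((a : ℤ) * k) :=
      hcop2.mul_right (Int.isCoprime_iff_gcd_eq_one.2 hgcd)
    unfold TS
    rw [mem_filter, Pool.Agent.W78.GT.mem_tri]
    have hX0 : 0 ≤ X := by linarith
    refine ⟨⟨hd, ?_, hd', ?_, ?_, ?_⟩, Int.isCoprime_iff_gcd_eq_one.1 hcop3, ?_⟩
    · have h1 : (d : ℝ) ≤ nm p.1 := by exact_mod_cast hdn
      have h2 : X ≤ C * X := by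
        have : (1 : ℝ) ≤ C := by rw [hC]; linarith
        nlinarith
      simp only
      linarith
    · have h1 : (d' : ℝ) ≤ nm (u * p.2) := by exact_mod_cast hdn'
      rw [Pool.Agent.W78.GA.nm_mul] at h1
      push_cast at h1
      have h2 : (nm u : ℝ) * nm p.2 ≤ nm u * X := mul_le_mul_of_nonneg_left hX2 hCu
      have h3 : (nm u : ℝ) * X ≤ C * X := by
        apply mul_le_mul_of_nonneg_right _ hX0
        rw [hC]; linarith
      simp only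
      linarith
    · simp only
      rw [heq]
      unfold Qp
      ring
    · simp only
      have h1 : 0 < (E : ℤ) * (2 * n + b * (a * k)) := by
        have : (E : ℤ) * (2 * n + b * (a * k)) =
          2 * ip p.1 (u * p.2) + (b * a) * dt p.1 (u * p.2) := by
          rw [hip, hdte]; ring
        rw [this]; exact hpos
      exact (pos_of_mul_pos_right h1 hE0.le).le
    · unfold NT
      simp only
      have n1 : nm p.1 ≠ 0 := (Pool.Agent.W78.GA.nm_pos hDa hz).ne'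
      have n2 : nm (u * p.2) ≠ 0 := by
        rw [Pool.Agent.W78.GA.nm_mul]
        exact (Nat.mul_pos (Pool.Agent.W78.GA.nm_pos hDa hu)
          (Pool.Agent.W78.GA.nm_pos hDa hz')).ne'
      have h4 := congrArg g hprod
      rw [mul_comm (d * d'), hg.sq_mul (by omega) (mul_ne_zero (by omega) (by omega)),
        hg.mul n1 n2] at h4
      rw [h4]
      exact (hg.eq_iff _ _).1 hg1
  have hfib : ∀ y ∈ ((Icc 1 B) ×ˢ (Icc 1 (B ^ 2))) ×ˢ T,
      ((NPr g b m a e u B X).filter (fun p => psi u p = y)).card ≤ C₁ := by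
    rintro ⟨⟨E, G⟩, ⟨k, ⟨d, n, d'⟩⟩⟩ hy
    rw [mem_product, mem_product, Finset.mem_Icc, Finset.mem_Icc, hT, Finset.mem_sigma] at hy
    obtain ⟨⟨⟨hE, hEB⟩, hG, hGB⟩, -, hTS⟩ := hy
    simp only at hE hEB hG hGB hTS
    unfold TS at hTS
    rw [mem_filter, Pool.Agent.W78.GT.mem_tri] at hTS
    obtain ⟨⟨hd, -, hd', -, hq, -⟩, hgcd, -⟩ := hTS
    simp only at hd hd' hq hgcd
    have hB1 : 1 ≤ B := hE.trans hEB
    have hEB2 : E ≤ B ^ 2 := by nlinarith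
    have hgcd' : Int.gcd n k = 1 := by
      rw [← Int.isCoprime_iff_gcd_eq_one] at hgcd ⊢
      exact IsCoprime.of_mul_right_right hgcd
    have hq' : (d : ℤ) * d' = n ^ 2 + (b * a) * n * k + (m * (a : ℤ) ^ 2) * k ^ 2 := by
      rw [hq]
      unfold Qp
      ring
    refine hC₁ E G n k d d' _ hE hEB2 hG hGB hd hd' hgcd' hq' ?_
    intro p hp
    rw [mem_filter] at hp
    obtain ⟨hz, hz', hdt, -⟩ := hmem p hp.1
    obtain ⟨E₂, G₂, n₂, k₂, d₂, d₂', hpsi, -, -, -, -, -, -, -, hnm, hip, hdte, -, -, -⟩ :=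
      psi_facts hDa u p.1 p.2 hz hu hz' hdt
    have hpsi' : psi u p = ((E₂, G₂), ⟨k₂, (d₂, n₂, d₂')⟩) := hpsi
    have h1 := hpsi'.symm.trans hp.2
    obtain ⟨h2, h3⟩ := Prod.ext_iff.1 h1
    obtain ⟨h4, h5⟩ := Prod.ext_iff.1 h2
    simp only at h3 h4 h5
    obtain ⟨h6, h7⟩ := Sigma.mk.inj_iff.1 h3
    have h8 := eq_of_heq h7
    obtain ⟨h9, h10⟩ := Prod.ext_iff.1 h8
    obtain ⟨h11, h12⟩ := Prod.ext_iff.1 h10
    simp only at h9 h11 h12
    subst h4 h5 h6 h9 h11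
    exact ⟨hnm, hip, hdte⟩
  have hcard := Finset.card_le_mul_card_image_of_maps_to hmaps C₁ hfib
  rw [card_product, card_product, Nat.card_Icc, Nat.card_Icc, Nat.add_sub_cancel,
    Nat.add_sub_cancel, hTcard] at hcard
  have hcardR : ((NPr g b m a e u B X).card : ℝ) ≤ (C₁ : ℝ) * (B * B ^ 2 *
      ∑ k ∈ (Icc (-(B : ℤ)) B).erase 0, ((TS g b m (a * k) (C * X)).card : ℝ)) := by
    exact_mod_cast hcard
  refine hcardR.trans ?_
  have hS : (0 : ℝ) ≤ ∑ k ∈ (Icc (-(B : ℤ)) B).erase 0,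
      ((TS g b m (a * k) (C * X)).card : ℝ) := Finset.sum_nonneg (fun _ _ => by positivity)
  rw [← mul_assoc]
  apply mul_le_mul_of_nonneg_right _ hS
  rw [hC]
  linarith

end Pool.Agent.H980.Q648
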