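import Pool.Agent.H648.Q.Defs

/-!
# Q648-STR: the star identity
-/

set_option autoImplicit false

namespace Pool.Agent.H980.Q648

open Pool.Agent.H648.Q
open Pool.Agent.W78.GS (Pm)

lemma g_fac {g : ℕ → ℤ} (hg : Pm g) {a κ f d E : ℤ} (h : a * κ ^ 2 * f = d * E) (hd : d ≠ 0)
    (hE : E ≠ 0) : g a.natAbs * g f.natAbs = g d.natAbs * g E.natAbs := by
  have h0 : a * κ ^ 2 * f ≠ 0 := by rw [h]; exact mul_ne_zero hd hE
  have ha : a ≠ 0 := by rintro rfl; simp at h0
  have hκ : κ ≠ 0 := by rintro rfl; simp at h0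
  have hf : f ≠ 0 := by rintro rfl; simp at h0
  have h1 := congrArg Int.natAbs h
  rw [Int.natAbs_mul, Int.natAbs_mul, Int.natAbs_mul, Int.natAbs_pow] at h1
  have h2 := congrArg g h1
  have e1 := Int.natAbs_ne_zero.2 ha
  have e2 := Int.natAbs_ne_zero.2 hκ
  have e3 := Int.natAbs_ne_zero.2 hf
  have e4 := Int.natAbs_ne_zero.2 hd
  have e5 := Int.natAbs_ne_zero.2 hE
  rw [hg.mul (mul_ne_zero e1 (pow_ne_zero 2 e2)) e3, hg.mul e1 (pow_ne_zero 2 e2),
    hg.mul e4 e5, pow_two, hg.mul e2 e2, hg.mul_self, mul_one] at h2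
  exact h2

theorem str_of {g : ℕ → ℤ} {a b c : ℤ} (hg : Pm g) (hD : b ^ 2 < 4 * (a * c)) :
    S_STR g a b c := by
  intro κ s n d d' hκ haκ hs hd hd' hdd hgcd hdvd
  have hd0 : (0 : ℤ) < d := by exact_mod_cast hd
  have hd0' : (0 : ℤ) < d' := by exact_mod_cast hd'
  have hss : s * s = 1 := by rcases hs with rfl | rfl <;> norm_num
  have ha : a ≠ 0 := by
    rintro rfl
    have := sq_nonneg b
    linarith
  obtain ⟨n₁, hn₁⟩ := hdvd
  have hco : IsCoprime n κ := Int.isCoprime_iff_gcd_eq_one.2 hgcd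
  have hdκ : IsCoprime (d : ℤ) κ := by
    have h1 : n = s * d + κ * (a * n₁) := by linear_combination hn₁
    rw [h1] at hco
    have h2 := (IsCoprime.add_mul_left_left_iff).1 hco
    exact IsCoprime.of_mul_left_right h2
  have hda : IsCoprime (d : ℤ) a := IsCoprime.of_isCoprime_of_dvd_right hdκ haκ
  have hdK : IsCoprime (d : ℤ) (a * κ) := hda.mul_right hdκ
  have key : (d : ℤ) * (s * d' - n - b * κ) = a * κ * (s * (n * n₁ + b * κ * n₁ + c * κ)) := by
    have e : n = s * d + a * κ * n₁ := by linear_combination hn₁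
    have h1 : (d : ℤ) * d' - (s * d) * n - (s * d) * (b * κ) =
        a * κ * (n * n₁ + b * κ * n₁ + c * κ) := by
      linear_combination hdd + (n + b * κ) * hn₁
    linear_combination s * h1 + (d : ℤ) * (n + b * κ) * hss
  obtain ⟨n₂, hn₂⟩ : a * κ ∣ s * d' - n - b * κ :=
    hdK.symm.dvd_of_dvd_mul_left (Dvd.intro _ key.symm)
  have f1 : a * κ ^ 2 * Fp a b c n₁ = d * (d + d' - s * (2 * n + b * κ)) := by
    have e1 : a * κ ^ 2 * Fp a b c n₁ = (a * κ * n₁) ^ 2 + b * κ * (a * κ * n₁) + a * c * κ ^ 2 := by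
      unfold Fp
      ring
    rw [e1, ← hn₁]
    linear_combination -hdd + (d : ℤ) ^ 2 * hss
  have f2 : a * κ ^ 2 * Fp a b c n₂ = d' * (d + d' - s * (2 * n + b * κ)) := by
    have e1 : a * κ ^ 2 * Fp a b c n₂ = (a * κ * n₂) ^ 2 + b * κ * (a * κ * n₂) + a * c * κ ^ 2 := by
      unfold Fp
      ring
    rw [e1, ← hn₂]
    linear_combination -hdd + (d' : ℤ) ^ 2 * hss
  have hE : 0 < (d : ℤ) + d' - s * (2 * n + b * κ) := by
    have h1 : (2 * n + b * κ) ^ 2 = 4 * (d * d') - (4 * (a * c) - b ^ 2) * κ ^ 2 := by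
      linear_combination -4 * hdd
    have h2 : 0 < κ ^ 2 := by positivity
    have h3 : (2 * n + b * κ) ^ 2 < ((d : ℤ) + d') ^ 2 := by
      nlinarith [sq_nonneg ((d : ℤ) - d')]
    have h4 := abs_lt_of_sq_lt_sq h3 (by positivity)
    rw [abs_lt] at h4
    rcases hs with rfl | rfl <;> linarith
  refine ⟨n₁, n₂, hn₁.symm, hn₂.symm, ?_, ⟨_, f1⟩, ⟨_, f2⟩⟩
  have g1 := g_fac hg f1 hd0.ne' hE.ne'
  have g2 := g_fac hg f2 hd0'.ne' hE.ne'
  rw [Int.natAbs_natCast] at g1 g2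
  rw [hg.mul (by omega) (by omega)]
  have s1 := hg.mul_self a.natAbs
  have s2 := hg.mul_self ((d : ℤ) + d' - s * (2 * n + b * κ)).natAbs
  generalize g a.natAbs = A at *
  generalize g ((d : ℤ) + d' - s * (2 * n + b * κ)).natAbs = B at *
  generalize g (Fp a b c n₁).natAbs = u at *
  generalize g (Fp a b c n₂).natAbs = v at *
  generalize g d = x at *
  generalize g d' = y at *
  calc u * v = (A * u) * (A * v) := by linear_combination -(u * v) * s1
    _ = (x * B) * (y * B) := by rw [g1, g2]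
    _ = x * y := by linear_combination (x * y) * s2

end Pool.Agent.H980.Q648
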